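import Mathlib

/-!
# Induced-metric-based embeddings of diversities into `ℓ₁` have linear distortion

For a set `S` of points let `δ_S(A)` be the maximum of `1_{|A| ≥ 2}` and of `|q(A)| - 1`, where `q`
collapses `S` to a point.  All `δ_S` induce the discrete metric.  If `S` and `T` are disjoint sets
of size `m`, then `δ_S(S) = 1` and `δ_S(T) ≥ m - 1`, and similarly with `S` and `T` exchanged; so
whatever the map is, it has distortion at least `m - 1` for one of `δ_S`, `δ_T`.
-/

set_option autoImplicit false

namespace Pool.Agent.Results.MP_00e3a8_gt.LinearLowerBound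

open Classical in
/-- A diversity on `X`. -/
structure Diversity (X : Type) where
  δ : Finset X → ℝ
  nonneg : ∀ A, 0 ≤ δ A
  eq_zero_iff : ∀ A, δ A = 0 ↔ A.card ≤ 1
  tri : ∀ A B C : Finset X, C.Nonempty → δ (A ∪ B) ≤ δ (A ∪ C) + δ (B ∪ C)

/-- A metric on `X`. -/
structure Metr (X : Type) where
  d : X → X → ℝ
  self : ∀ x, d x x = 0
  eq_of_zero : ∀ x y, d x y = 0 → x = y
  symm : ∀ x y, d x y = d y x
  tri : ∀ x y z, d x z ≤ d x y + d y z

@[ext] lemma Metr.ext' {X : Type} {m m' : Metr X} (h : m.d = m'.d) : m = m' := by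
  cases m
  cases m'
  simp only at h
  subst h
  rfl

open Classical in
/-- The induced metric of a diversity. -/
noncomputable def Diversity.induced {X : Type} (D : Diversity X) : Metr X where
  d x y := D.δ {x, y}
  self x := by
    rw [D.eq_zero_iff]
    simp
  eq_of_zero x y h := by
    rw [D.eq_zero_iff] at h
    by_contra hne
    rw [Finset.card_pair hne] at h
    omega
  symm x y := by rw [Finset.pair_comm]
  tri x y z := by
    have h := D.tri {x} {z} {y} (Finset.singleton_nonempty y)
    have h1 : ({x} ∪ {z} : Finset X) = {x, z} := rfl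
    have h2 : ({x} ∪ {y} : Finset X) = {x, y} := rfl
    have h3 : ({z} ∪ {y} : Finset X) = {y, z} := by
      rw [Finset.pair_comm]
      rfl
    rwa [h1, h2, h3] at h

/-- The `ℓ₁` diversity on `ℝ^k`: the sum over the coordinates of the maximum of `|a_i - b_i|` over
`a, b ∈ A` (which is `0` for empty `A`). -/
noncomputable def l1Diversity (k : ℕ) (A : Finset (Fin k → ℝ)) : ℝ :=
  ∑ i, sSup {r : ℝ | ∃ a ∈ A, ∃ b ∈ A, r = |a i - b i|}

/-- An induced-metric-based embedding rule: to every finite metric space it assigns a dimension `k`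
and a map to `ℝ^k`. -/
def Rule : Type 1 := ∀ (X : Type) [Finite X], Metr X → Σ k : ℕ, (X → (Fin k → ℝ))

open Classical in
/-- The `ℓ₁` diversity of the image of `A` under `φ`. -/
noncomputable def l1Image {X : Type} {k : ℕ} (φ : X → (Fin k → ℝ)) (A : Finset X) : ℝ :=
  l1Diversity k (A.image φ)

/-- The map `φ : (X, δ) → ℓ₁^k` has distortion `c`. -/
def HasDistortion {X : Type} (D : Diversity X) {k : ℕ} (φ : X → (Fin k → ℝ)) (c : ℝ) : Prop :=
  ∃ c₁ c₂ : ℝ, 0 < c₁ ∧ 0 < c₂ ∧ c = c₁ * c₂ ∧ ∀ A : Finset X,
    1 / c₁ * D.δ A ≤ l1Image φ A ∧ l1Image φ A ≤ c₂ * D.δ A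

/-! ### The diversities -/

open Classical in
/-- The map collapsing `S` to a point. -/
noncomputable def q {X : Type} (S : Finset X) : X → Option X := fun x => if x ∈ S then none else some x

open Classical in
/-- The diversity `δ_S`. -/
noncomputable def dS {X : Type} (S : Finset X) (A : Finset X) : ℝ :=
  max (if 2 ≤ A.card then 1 else 0) (((A.image (q S)).card : ℝ) - 1)

open Classical in
lemma dS_eq_of_two_le {X : Type} (S A : Finset X) (h : 2 ≤ A.card) :
    dS S A = max 1 (((A.image (q S)).card : ℝ) - 1) := by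
  rw [dS, if_pos h]

open Classical in
lemma dS_eq_zero {X : Type} (S A : Finset X) (h : A.card ≤ 1) : dS S A = 0 := by
  rw [dS, if_neg (by omega)]
  apply max_eq_left
  have h1 : (A.image (q S)).card ≤ 1 := Finset.card_image_le.trans h
  have h2 : ((A.image (q S)).card : ℝ) ≤ 1 := by exact_mod_cast h1
  linarith

open Classical in
/-- The diversity `δ_S`. -/
noncomputable def divS {X : Type} (S : Finset X) : Diversity X where
  δ := dS S
  nonneg A := by
    refine le_max_of_le_left ?_
    split_ifs <;> norm_num
  eq_zero_iff A := by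
    constructor
    · intro h
      by_contra hlt
      have h1 := dS_eq_of_two_le S A (by omega)
      rw [h] at h1
      have h2 := le_max_left (1 : ℝ) (((A.image (q S)).card : ℝ) - 1)
      linarith
    · exact dS_eq_zero S A
  tri A B C hC := by
    have hnn : ∀ A : Finset X, 0 ≤ dS S A := fun A => by
      refine le_max_of_le_left ?_
      split_ifs <;> norm_num
    refine max_le ?_ ?_
    · split_ifs with h
      · by_cases h1 : 2 ≤ (A ∪ C).card
        · have h2 : 1 ≤ dS S (A ∪ C) := by
            rw [dS_eq_of_two_le S _ h1]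
            exact le_max_left _ _
          linarith [hnn (B ∪ C)]
        · have h2 : 2 ≤ (B ∪ C).card := by
            by_contra h2
            obtain ⟨c, hc⟩ := hC
            have h3 : A ∪ B ⊆ {c} := by
              intro x hx
              rw [Finset.mem_singleton]
              rcases Finset.mem_union.1 hx with hx | hx
              · exact Finset.card_le_one.1 (by omega : (A ∪ C).card ≤ 1) x
                  (Finset.mem_union_left _ hx) c (Finset.mem_union_right _ hc)
              · exact Finset.card_le_one.1 (by omega : (B ∪ C).card ≤ 1) x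
                  (Finset.mem_union_left _ hx) c (Finset.mem_union_right _ hc)
            have h4 := Finset.card_le_card h3
            rw [Finset.card_singleton] at h4
            omega
          have h3 : 1 ≤ dS S (B ∪ C) := by
            rw [dS_eq_of_two_le S _ h2]
            exact le_max_left _ _
          linarith [hnn (A ∪ C)]
      · exact add_nonneg (hnn _) (hnn _)
    · have h1 : (((A ∪ C).image (q S)).card : ℝ) - 1 ≤ dS S (A ∪ C) := le_max_right _ _
      have h2 : (((B ∪ C).image (q S)).card : ℝ) - 1 ≤ dS S (B ∪ C) := le_max_right _ _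
      have h3 : ((A ∪ B).image (q S)).card ≤
          ((A ∪ C).image (q S) ∪ (B ∪ C).image (q S)).card := by
        apply Finset.card_le_card
        rw [← Finset.image_union]
        apply Finset.image_subset_image
        intro x hx
        rcases Finset.mem_union.1 hx with hx | hx
        · exact Finset.mem_union_left _ (Finset.mem_union_left _ hx)
        · exact Finset.mem_union_right _ (Finset.mem_union_left _ hx)
      have h4 := Finset.card_union_add_card_inter ((A ∪ C).image (q S)) ((B ∪ C).image (q S))
      have h5 : 1 ≤ ((A ∪ C).image (q S) ∩ (B ∪ C).image (q S)).card := by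
        rw [Nat.one_le_iff_ne_zero, ← Nat.pos_iff_ne_zero, Finset.card_pos]
        obtain ⟨c, hc⟩ := hC
        exact ⟨q S c, Finset.mem_inter.2 ⟨Finset.mem_image_of_mem _ (Finset.mem_union_right _ hc),
          Finset.mem_image_of_mem _ (Finset.mem_union_right _ hc)⟩⟩
      have h6 : ((A ∪ B).image (q S)).card + 1 ≤
          ((A ∪ C).image (q S)).card + ((B ∪ C).image (q S)).card := by omega
      have h7 : (((A ∪ B).image (q S)).card : ℝ) + 1 ≤
          ((A ∪ C).image (q S)).card + ((B ∪ C).image (q S)).card := by exact_mod_cast h6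
      linarith

open Classical in
lemma divS_pair {X : Type} (S : Finset X) (x y : X) (h : x ≠ y) : (divS S).δ {x, y} = 1 := by
  change dS S {x, y} = 1
  have h1 : 2 ≤ ({x, y} : Finset X).card := by rw [Finset.card_pair h]
  rw [dS_eq_of_two_le S _ h1]
  apply max_eq_left
  have h2 : (({x, y} : Finset X).image (q S)).card ≤ 2 := by
    refine Finset.card_image_le.trans ?_
    rw [Finset.card_pair h]
  have h3 : ((({x, y} : Finset X).image (q S)).card : ℝ) ≤ 2 := by exact_mod_cast h2
  linarith

lemma induced_eq {X : Type} (S T : Finset X) : (divS S).induced = (divS T).induced := by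
  classical
  ext x y
  by_cases h : x = y
  · rw [h, Metr.self, Metr.self]
  · exact (divS_pair S x y h).trans (divS_pair T x y h).symm

lemma divS_self {X : Type} (S : Finset X) : (divS S).δ S ≤ 1 := by
  classical
  change dS S S ≤ 1
  refine max_le ?_ ?_
  · split_ifs <;> norm_num
  · have h1 : S.image (q S) ⊆ {none} := by
      intro a ha
      obtain ⟨x, hx, rfl⟩ := Finset.mem_image.1 ha
      rw [Finset.mem_singleton, q, if_pos hx]
    have h2 := Finset.card_le_card h1
    rw [Finset.card_singleton] at h2
    have h3 : ((S.image (q S)).card : ℝ) ≤ 1 := by exact_mod_cast h2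
    linarith

lemma le_divS {X : Type} (S T : Finset X) (h : Disjoint S T) : (T.card : ℝ) - 1 ≤ (divS S).δ T := by
  classical
  change (T.card : ℝ) - 1 ≤ dS S T
  refine le_trans ?_ (le_max_right _ _)
  have h1 : (T.image (q S)).card = T.card := by
    apply Finset.card_image_of_injOn
    intro x hx y hy hxy
    have hx' : x ∉ S := fun hS => (Finset.disjoint_left.1 h) hS hx
    have hy' : y ∉ S := fun hS => (Finset.disjoint_left.1 h) hS hy
    simp only [q, if_neg hx', if_neg hy'] at hxy
    exact Option.some_injective _ hxy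
  rw [h1]

/-- The key estimate: if the value on `S` is at least the value on `T`, the distortion of `δ_S` is
at least `|T| - 1`. -/
lemma le_of_hasDistortion {X : Type} (S T : Finset X) (h : Disjoint S T) {k : ℕ}
    (φ : X → (Fin k → ℝ)) (c : ℝ) (hc : HasDistortion (divS S) φ c)
    (hST : l1Image φ T ≤ l1Image φ S) : (T.card : ℝ) - 1 ≤ c := by
  obtain ⟨c₁, c₂, h1, h2, rfl, h3⟩ := hc
  have h4 := (h3 T).1
  have h5 := (h3 S).2
  have h6 := divS_self S
  have h7 := le_divS S T h
  have h8 : 1 / c₁ * (divS S).δ T ≤ c₂ * (divS S).δ S := h4.trans (hST.trans h5)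
  have h9 : (divS S).δ T ≤ c₁ * (c₂ * (divS S).δ S) := by
    rw [one_div, inv_mul_le_iff₀ h1] at h8
    exact h8
  have h10 : c₁ * (c₂ * (divS S).δ S) ≤ c₁ * (c₂ * 1) := by gcongr
  linarith

/-- The rule based bound. -/
theorem lower_bound (R : Rule) (X : Type) [Finite X] (S T : Finset X) (h : Disjoint S T)
    (m : ℕ) (hS : S.card = m) (hT : T.card = m) :
    ∃ D : Diversity X, ∀ c : ℝ, HasDistortion D (R X D.induced).2 c → (m : ℝ) - 1 ≤ c := by
  rcases le_total (l1Image (R X (divS S).induced).2 T)
    (l1Image (R X (divS S).induced).2 S) with hle | hle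
  · refine ⟨divS S, fun c hc => ?_⟩
    rw [← hT]
    exact le_of_hasDistortion S T h _ c hc hle
  · refine ⟨divS T, fun c hc => ?_⟩
    rw [← hS]
    refine le_of_hasDistortion T S h.symm _ c hc ?_
    rw [induced_eq T S]
    exact hle

/-- For every induced-metric-based embedding rule and every `n`, there is a diversity with `n`
points whose distortion is at least `⌊n/2⌋ - 1`.  In particular, there are no constant `C` and no
rule with distortion at most `C √n` for all `n ≥ 2` and all diversities with `n` points. -/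
theorem result :
    (∀ (R : Rule) (n : ℕ), ∃ D : Diversity (Fin n), ∀ c : ℝ,
      HasDistortion D (R (Fin n) D.induced).2 c → ((n / 2 : ℕ) : ℝ) - 1 ≤ c) ∧
    ¬ ∃ (C : ℝ) (R : Rule), ∀ n : ℕ, 2 ≤ n → ∀ (X : Type) [Finite X], Nat.card X = n →
      ∀ D : Diversity X, ∃ c ≤ C * √n, HasDistortion D (R X D.induced).2 c := by
  have main : ∀ (R : Rule) (n : ℕ), ∃ D : Diversity (Fin n), ∀ c : ℝ,
      HasDistortion D (R (Fin n) D.induced).2 c → ((n / 2 : ℕ) : ℝ) - 1 ≤ c := by
    intro R n
    have h1 : ∀ i : Fin (n / 2), (i : ℕ) < n := fun i => by omega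
    have h2 : ∀ i : Fin (n / 2), (i : ℕ) + n / 2 < n := fun i => by omega
    let f : Fin (n / 2) ↪ Fin n := ⟨fun i => ⟨i, h1 i⟩, fun i j hij => by
      have := congrArg Fin.val hij
      exact Fin.ext this⟩
    let g : Fin (n / 2) ↪ Fin n := ⟨fun i => ⟨i + n / 2, h2 i⟩, fun i j hij => by
      have := congrArg Fin.val hij
      simp only at this
      exact Fin.ext (by omega)⟩
    refine lower_bound R (Fin n) (Finset.univ.map f) (Finset.univ.map g) ?_ (n / 2) (by simp)
      (by simp)
    rw [Finset.disjoint_left]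
    rintro x hx hy
    obtain ⟨i, -, hi⟩ := Finset.mem_map.1 hx
    obtain ⟨j, -, hj⟩ := Finset.mem_map.1 hy
    have h3 : f i = g j := hi.trans hj.symm
    have h4 : (i : ℕ) = j + n / 2 := congrArg Fin.val h3
    omega
  refine ⟨main, ?_⟩
  rintro ⟨C, R, h⟩
  obtain ⟨K, hK⟩ := exists_nat_gt (2 * (|C| + 1))
  have hK0 : 0 < K := by
    have : (0 : ℝ) < K := lt_of_le_of_lt (by positivity) hK
    exact_mod_cast this
  -- take `n = (2 K)²`
  obtain ⟨D, hD⟩ := main R ((2 * K) ^ 2)
  have hn : 2 ≤ (2 * K) ^ 2 := by nlinarith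
  obtain ⟨c, hc, hc'⟩ := h ((2 * K) ^ 2) hn (Fin ((2 * K) ^ 2)) (by simp) D
  have h1 := hD c hc'
  have h2 : (2 * K) ^ 2 / 2 = 2 * K ^ 2 := by
    have : (2 * K) ^ 2 = 2 * (2 * K ^ 2) := by ring
    rw [this, Nat.mul_div_cancel_left _ two_pos]
  rw [h2] at h1
  have h3 : √(((2 * K) ^ 2 : ℕ) : ℝ) = 2 * K := by
    push_cast
    exact Real.sqrt_sq (by positivity)
  rw [h3] at hc
  push_cast at h1
  have h4 : C ≤ |C| := le_abs_self C
  have h5 : (0 : ℝ) < K := by exact_mod_cast hK0
  have h6 : (1 : ℝ) ≤ K := by exact_mod_cast hK0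
  have h7 : C * (2 * K) ≤ |C| * (2 * K) := by gcongr
  nlinarith [abs_nonneg C]

end Pool.Agent.Results.MP_00e3a8_gt.LinearLowerBound
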